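import Mathlib
import Pool.Agent.W805.LR.Stm

set_option autoImplicit false

namespace Pool.Agent.W12.LR

open Pool.Agent.W805.LR

noncomputable section

lemma exp_neg_le_inv {x : ℝ} (hx : 0 < x) : Real.exp (-x) ≤ 1 / x := by
  rw [Real.exp_neg, ← one_div]
  exact one_div_le_one_div_of_le hx (by have := Real.add_one_le_exp x; linarith)

lemma comb1 {l y : ℝ} (hl : 0 < l) (hy : 0 < y) (p1 p2 q r : ℝ) :
    y ^ p1 * (y ^ p2 * y ^ p2) * l ^ q * (l ^ r * y ^ r) =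
      l ^ (q + r) * y ^ (p1 + (p2 + p2) + r) := by
  rw [Real.rpow_add hl, Real.rpow_add hy, Real.rpow_add hy, Real.rpow_add hy]
  ring

lemma comb2 {l y : ℝ} (hl : 0 < l) (hy : 0 < y) (p1 p2 q r : ℝ) :
    y ^ p1 * y ^ p2 * l ^ q * (l ^ r * y ^ r) =
      l ^ (q + r) * y ^ (p1 + p2 + r) := by
  rw [Real.rpow_add hl, Real.rpow_add hy, Real.rpow_add hy]
  ring

lemma pow_aux1 {σ l y : ℝ} (h0 : 0 < σ) (h1 : σ < 1) (hl : 1 ≤ l) (hy : 1 ≤ y) :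
    y ^ ((1 - σ) ^ 2 / 16 / 2) * (y ^ (σ + (1 - σ) ^ 2 / 16) * y ^ (σ + (1 - σ) ^ 2 / 16)) * l ^ σ *
      (l * y) ^ (-((1 - (1 - σ) / 4) * (1 + σ))) ≤
      l ^ (-((1 - σ) ^ 2 / 8)) * y ^ (-((1 - σ) ^ 2 / 32)) := by
  have hl0 : 0 < l := by linarith
  have hy0 : 0 < y := by linarith
  rw [Real.mul_rpow hl0.le hy0.le]
  rw [comb1 hl0 hy0]
  refine mul_le_mul ?_ ?_ (by positivity) (by positivity)
  · refine Real.rpow_le_rpow_of_exponent_le hl ?_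
    nlinarith
  · refine Real.rpow_le_rpow_of_exponent_le hy ?_
    nlinarith

lemma pow_aux2 {σ l y : ℝ} (h0 : 0 < σ) (h1 : σ < 1) (hl : 1 ≤ l) (hy : 1 ≤ y) :
    y ^ ((1 - σ) ^ 2 / 16 / 2) * y ^ (σ + (1 - σ) ^ 2 / 16) * l ^ σ *
      (l * y) ^ (-1 + (1 - (1 - σ) / 4) * (1 - σ)) ≤
      l ^ (-((1 - σ) ^ 2 / 8)) * y ^ (-((1 - σ) ^ 2 / 32)) := by
  have hl0 : 0 < l := by linarith
  have hy0 : 0 < y := by linarith
  rw [Real.mul_rpow hl0.le hy0.le]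
  rw [comb2 hl0 hy0]
  refine mul_le_mul ?_ ?_ (by positivity) (by positivity)
  · refine Real.rpow_le_rpow_of_exponent_le hl ?_
    nlinarith
  · refine Real.rpow_le_rpow_of_exponent_le hy ?_
    nlinarith

/-- The damage term. -/
lemma damage {d : ℕ} {σ lam Lam Θ C Γ dl t l y : ℝ} (hd : 1 ≤ d) (h0 : 0 < σ) (h1 : σ < 1)
    (hlam : 0 < lam) (hLam : lam ≤ Lam) (hΘ : 1 ≤ Θ) (hC : 0 < C) (hΓ : 0 < Γ) (hdl : 0 < dl)
    (hdl1 : dl ≤ 1) (ht : 0 < t) (hl : 1 ≤ l) (hy : 1 ≤ y)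
    (htΓ : t * (lam / 8) * l ^ (-σ) / 2 ^ d ≤ 2 * Γ) :
    (2 + 1 / (dl * y ^ (-((1 - σ) ^ 2 / 32)))) * Θ * t * y ^ (σ + (1 - σ) ^ 2 / 16) *
      (2 * y ^ (σ + (1 - σ) ^ 2 / 16) * (lam / 4 * (l * y) ^ (-((d : ℝ) + σ)) +
          Lam * ((l * y) ^ (1 - (1 - σ) / 4)) ^ (-((d : ℝ) + σ))) +
        C * (l * y)⁻¹ * ((l * y) ^ (1 - (1 - σ) / 4)) ^ (1 - σ)) ≤
      (3 * Θ * (16 * 2 ^ d / lam) * Γ / dl) * (4 * Lam + C) *
        (l ^ (-((1 - σ) ^ 2 / 8)) * y ^ (-((1 - σ) ^ 2 / 32))) := by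
  have hl0 : 0 < l := by linarith
  have hy0 : 0 < y := by linarith
  have hLam0 : 0 < Lam := by linarith
  have hΘ0 : 0 < Θ := by linarith
  have hb1 : 1 ≤ l * y := by nlinarith
  have hb0 : 0 < l * y := by positivity
  have hd' : (1:ℝ) ≤ d := by exact_mod_cast hd
  set al := (1 - σ) ^ 2 / 16 with hal
  set a := σ + al with ha
  set p := (1 - (1 - σ) / 4) * (1 + σ) with hp
  have hal2 : (1 - σ) ^ 2 / 32 = al / 2 := by rw [hal]; ring
  -- t bound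
  have ht1 : t ≤ 16 * 2 ^ d / lam * Γ * l ^ σ := by
    have e1 : t * (lam / 8) * l ^ (-σ) / 2 ^ d * (8 * 2 ^ d / lam * l ^ σ) = t := by
      rw [Real.rpow_neg hl0.le]
      have : l ^ σ ≠ 0 := (Real.rpow_pos_of_pos hl0 _).ne'
      field_simp
    have e2 := mul_le_mul_of_nonneg_right htΓ
      (by positivity : (0:ℝ) ≤ 8 * 2 ^ d / lam * l ^ σ)
    rw [e1] at e2
    refine e2.trans (le_of_eq ?_)
    ring
  -- delta bound
  have hyp : y ^ (-(al / 2)) ≤ 1 := by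
    apply Real.rpow_le_one_of_one_le_of_nonpos hy
    have : 0 ≤ al := by rw [hal]; positivity
    linarith
  have hyp0 : 0 < y ^ (-(al / 2)) := Real.rpow_pos_of_pos hy0 _
  have hdel : 2 + 1 / (dl * y ^ (-(al / 2))) ≤ 3 / dl * y ^ (al / 2) := by
    have h2 : dl * y ^ (-(al / 2)) ≤ 1 := by nlinarith
    have h3 : 0 < dl * y ^ (-(al / 2)) := by positivity
    have h4 : (1:ℝ) ≤ 1 / (dl * y ^ (-(al / 2))) := by
      rw [le_div_iff₀ h3]; linarith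
    have h5 : 3 / dl * y ^ (al / 2) = 3 * (1 / (dl * y ^ (-(al / 2)))) := by
      rw [Real.rpow_neg hy0.le]
      have : y ^ (al / 2) ≠ 0 := (Real.rpow_pos_of_pos hy0 _).ne'
      field_simp
    rw [h5]
    linarith
  -- powers of b
  have hP : (l * y) ^ (-((d : ℝ) + σ)) ≤ (l * y) ^ (-p) := by
    refine Real.rpow_le_rpow_of_exponent_le hb1 ?_
    rw [hp]
    nlinarith
  have hF : ((l * y) ^ (1 - (1 - σ) / 4)) ^ (-((d : ℝ) + σ)) ≤ (l * y) ^ (-p) := by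
    rw [← Real.rpow_mul hb0.le]
    refine Real.rpow_le_rpow_of_exponent_le hb1 ?_
    rw [hp]
    have h2 : 0 < 1 - (1 - σ) / 4 := by linarith
    nlinarith
  have hN : (l * y)⁻¹ * ((l * y) ^ (1 - (1 - σ) / 4)) ^ (1 - σ) =
      (l * y) ^ (-1 + (1 - (1 - σ) / 4) * (1 - σ)) := by
    rw [← Real.rpow_mul hb0.le, Real.rpow_add hb0, Real.rpow_neg_one]
  have hPF : lam / 4 * (l * y) ^ (-((d : ℝ) + σ)) +
          Lam * ((l * y) ^ (1 - (1 - σ) / 4)) ^ (-((d : ℝ) + σ)) ≤ 2 * Lam * (l * y) ^ (-p) := by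
    have h2 : 0 < (l * y) ^ (-p) := Real.rpow_pos_of_pos hb0 _
    have h3 := mul_le_mul_of_nonneg_left hP (by positivity : 0 ≤ lam / 4)
    have h4 := mul_le_mul_of_nonneg_left hF hLam0.le
    nlinarith
  have hya : 0 < y ^ a := Real.rpow_pos_of_pos hy0 _
  have haux1 := pow_aux1 h0 h1 hl hy
  have haux2 := pow_aux2 h0 h1 hl hy
  rw [← hal, ← ha, hal2, ← hp] at haux1
  rw [← hal, ← ha, hal2] at haux2
  rw [hal2]
  set g := l ^ (-((1 - σ) ^ 2 / 8)) * y ^ (-(al / 2)) with hg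
  have hg0 : 0 < g := by
    have := Real.rpow_pos_of_pos hl0 (-((1 - σ) ^ 2 / 8))
    positivity
  have hin : 2 * y ^ a * (lam / 4 * (l * y) ^ (-((d : ℝ) + σ)) +
          Lam * ((l * y) ^ (1 - (1 - σ) / 4)) ^ (-((d : ℝ) + σ))) +
        C * (l * y)⁻¹ * ((l * y) ^ (1 - (1 - σ) / 4)) ^ (1 - σ) ≤
      2 * y ^ a * (2 * Lam * (l * y) ^ (-p)) +
        C * (l * y) ^ (-1 + (1 - (1 - σ) / 4) * (1 - σ)) := by
    rw [mul_assoc C, hN]
    have := mul_le_mul_of_nonneg_left hPF (by positivity : 0 ≤ 2 * y ^ a)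
    linarith
  have hin0 : 0 ≤ 2 * y ^ a * (lam / 4 * (l * y) ^ (-((d : ℝ) + σ)) +
          Lam * ((l * y) ^ (1 - (1 - σ) / 4)) ^ (-((d : ℝ) + σ))) +
        C * (l * y)⁻¹ * ((l * y) ^ (1 - (1 - σ) / 4)) ^ (1 - σ) := by positivity
  calc (2 + 1 / (dl * y ^ (-(al / 2)))) * Θ * t * y ^ a *
      (2 * y ^ a * (lam / 4 * (l * y) ^ (-((d : ℝ) + σ)) +
          Lam * ((l * y) ^ (1 - (1 - σ) / 4)) ^ (-((d : ℝ) + σ))) +
        C * (l * y)⁻¹ * ((l * y) ^ (1 - (1 - σ) / 4)) ^ (1 - σ))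
      ≤ (3 / dl * y ^ (al / 2)) * Θ * (16 * 2 ^ d / lam * Γ * l ^ σ) * y ^ a *
        (2 * y ^ a * (2 * Lam * (l * y) ^ (-p)) +
        C * (l * y) ^ (-1 + (1 - (1 - σ) / 4) * (1 - σ))) := by
        gcongr
    _ = (3 * Θ * (16 * 2 ^ d / lam) * Γ / dl) *
        (4 * Lam * (y ^ (al / 2) * (y ^ a * y ^ a) * l ^ σ * (l * y) ^ (-p)) +
          C * (y ^ (al / 2) * y ^ a * l ^ σ *
            (l * y) ^ (-1 + (1 - (1 - σ) / 4) * (1 - σ)))) := by ring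
    _ ≤ (3 * Θ * (16 * 2 ^ d / lam) * Γ / dl) * (4 * Lam * g + C * g) := by
        gcongr
    _ = (3 * Θ * (16 * 2 ^ d / lam) * Γ / dl) * (4 * Lam + C) * g := by ring

/-- The exponential term. -/
lemma expo {d : ℕ} {σ lam Θ Γ dl t l y sm : ℝ} (h0 : 0 < σ) (h1 : σ < 1)
    (hlam : 0 < lam) (hΘ : 1 ≤ Θ) (hΓ : 0 < Γ) (hdl : 0 < dl)
    (ht : 0 < t) (hl : 1 ≤ l) (hy : 1 ≤ y)
    (htΓ : Γ ≤ t * (lam / 8) * l ^ (-σ) / 2 ^ d) (hsm : y ^ (σ + (1 - σ) ^ 2 / 16) / 2 ≤ sm) :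
    Real.exp (-(t * (lam / 4 * (l * y) ^ (-((d : ℝ) + σ))) * sm *
      (dl * y ^ (-((1 - σ) ^ 2 / 32))) * (l * y / 2) ^ d / (8 * Θ))) ≤
      8 * Θ / (Γ * dl) * y ^ (-((1 - σ) ^ 2 / 32)) := by
  have hl0 : 0 < l := by linarith
  have hy0 : 0 < y := by linarith
  have hΘ0 : 0 < Θ := by linarith
  have hb0 : 0 < l * y := by positivity
  set al := (1 - σ) ^ 2 / 16 with hal
  have hal2 : (1 - σ) ^ 2 / 32 = al / 2 := by rw [hal]; ring
  rw [hal2]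
  have hx : Γ * dl / (8 * Θ) * y ^ (al / 2) ≤ t * (lam / 4 * (l * y) ^ (-((d : ℝ) + σ))) * sm *
      (dl * y ^ (-(al / 2))) * (l * y / 2) ^ d / (8 * Θ) := by
    have e1 : (l * y) ^ (-((d : ℝ) + σ)) * (l * y / 2) ^ d = l ^ (-σ) * y ^ (-σ) / 2 ^ d := by
      rw [← Real.mul_rpow hl0.le hy0.le, neg_add, Real.rpow_add hb0, Real.rpow_neg hb0.le (d : ℝ),
        Real.rpow_natCast, div_pow]
      field_simp
    have e2 : t * (lam / 4 * (l * y) ^ (-((d : ℝ) + σ))) * sm *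
      (dl * y ^ (-(al / 2))) * (l * y / 2) ^ d / (8 * Θ) =
      (t * (lam / 8) * l ^ (-σ) / 2 ^ d) * (2 * y ^ (-σ) * sm * (dl * y ^ (-(al / 2))) / (8 * Θ)) := by
      calc _ = (t * lam / 4) * ((l * y) ^ (-((d : ℝ) + σ)) * (l * y / 2) ^ d) * sm *
            (dl * y ^ (-(al / 2))) / (8 * Θ) := by ring
        _ = _ := by rw [e1]; ring
    have e3 : Γ * dl / (8 * Θ) * y ^ (al / 2) =
        Γ * (2 * y ^ (-σ) * (y ^ (σ + al) / 2) * (dl * y ^ (-(al / 2))) / (8 * Θ)) := by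
      have : y ^ (al / 2) = y ^ (-σ) * y ^ (σ + al) * y ^ (-(al / 2)) := by
        rw [← Real.rpow_add hy0, ← Real.rpow_add hy0]
        congr 1
        ring
      rw [this]
      ring
    rw [e2, e3]
    have hsm0 : 0 ≤ sm := le_trans (by positivity) hsm
    gcongr
  have hpos : 0 < Γ * dl / (8 * Θ) * y ^ (al / 2) := by positivity
  refine (exp_neg_le_inv (lt_of_lt_of_le hpos hx)).trans ?_
  refine (one_div_le_one_div_of_le hpos hx).trans (le_of_eq ?_)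
  rw [Real.rpow_neg hy0.le]
  have : y ^ (al / 2) ≠ 0 := (Real.rpow_pos_of_pos hy0 _).ne'
  field_simp

/-- base stages -/
lemma base {d : ℕ} {σ lam Θ Γ t l : ℝ} (hd : 1 ≤ d) (hlam : 0 < lam) (hΘ : 1 ≤ Θ) (hΓ : 0 < Γ)
    (ht : 0 < t) (hl : 1 ≤ l) (hG1 : Γ ≤ t * (lam / 8) * l ^ (-σ) / 2 ^ d)
    (hG2 : t * (lam / 8) * l ^ (-σ) / 2 ^ d ≤ 2 * Γ) :
    baseErr d σ lam Θ t l 1 ≤
      ((2 + 32 * Θ ^ 2) * (2 * Θ) + 32 * Θ ^ 3) * (2 * Γ * 2 ^ d / l) +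
        (8 * Θ + 256 * Θ ^ 3) / Γ := by
  have hl0 : 0 < l := by linarith
  have hΘ0 : 0 < Θ := by linarith
  set G := t * (lam / 8) * l ^ (-σ) / 2 ^ d with hG
  have hG0 : 0 < G := lt_of_lt_of_le hΓ hG1
  have e0 : t * (lam / 8 * l ^ (-((d : ℝ) + σ))) = G * 2 ^ d / l ^ d := by
    rw [hG, neg_add, Real.rpow_add hl0, Real.rpow_neg hl0.le (d : ℝ), Real.rpow_natCast]
    field_simp
  have e1 : t * (lam / 8 * l ^ (-((d : ℝ) + σ))) * (l / 2) ^ d = G := by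
    rw [e0, div_pow]
    field_simp
  have hld : l ≤ l ^ d := by
    calc l = l ^ 1 := (pow_one l).symm
      _ ≤ l ^ d := pow_le_pow_right₀ hl hd
  have hG' : t * (lam / 8 * l ^ (-((d : ℝ) + σ))) ≤ 2 * Γ * 2 ^ d / l := by
    rw [e0]
    calc G * 2 ^ d / l ^ d ≤ (2 * Γ) * 2 ^ d / l ^ d := by gcongr
      _ ≤ 2 * Γ * 2 ^ d / l := by gcongr
  unfold baseErr
  rw [mul_assoc t, show t * (lam / 8 * l ^ (-((d : ℝ) + σ)) * (l / 2) ^ d) = G by
    rw [← mul_assoc]; exact e1]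
  set G' := t * (lam / 8 * l ^ (-((d : ℝ) + σ))) with hGp
  have e2 : 8 * Θ / G ≤ 8 * Θ / Γ := by gcongr
  have e3 : Real.exp (-(G / (256 * Θ ^ 3))) ≤ 256 * Θ ^ 3 / Γ := by
    refine (exp_neg_le_inv (by positivity)).trans ?_
    rw [one_div, inv_div]
    gcongr
  have e4 : (2 + 32 * Θ ^ 2) * (2 * Θ) * G' * 1 ^ 2 + 32 * Θ ^ 3 * G' * 1 ^ 2 ≤
      ((2 + 32 * Θ ^ 2) * (2 * Θ) + 32 * Θ ^ 3) * (2 * Γ * 2 ^ d / l) := by
    have := mul_le_mul_of_nonneg_left hG'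
      (by positivity : 0 ≤ (2 + 32 * Θ ^ 2) * (2 * Θ) + 32 * Θ ^ 3)
    nlinarith
  have e5 : (8 * Θ + 256 * Θ ^ 3) / Γ = 8 * Θ / Γ + 256 * Θ ^ 3 / Γ := by ring
  rw [e5]
  linarith

lemma two_pow_rpow (n : ℕ) (c : ℝ) : ((2:ℝ) ^ n) ^ c = (2:ℝ) ^ ((n:ℝ) * c) := by
  rw [← Real.rpow_natCast, ← Real.rpow_mul (by norm_num)]

lemma two_pow_rpow' (n : ℕ) (c : ℝ) : ((2:ℝ) ^ n) ^ c = ((2:ℝ) ^ c) ^ n := by
  rw [two_pow_rpow, mul_comm, Real.rpow_mul (by norm_num), Real.rpow_natCast]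

lemma geo_sum {r : ℝ} (h0 : 0 ≤ r) (h1 : r < 1) (I : ℕ) :
    ∑ j ∈ Finset.range I, r ^ (j + 1) ≤ 1 / (1 - r) := by
  calc ∑ j ∈ Finset.range I, r ^ (j + 1) ≤ ∑ j ∈ Finset.range I, r ^ j := by
        refine Finset.sum_le_sum fun j _ => ?_
        rw [pow_succ]
        exact mul_le_of_le_one_right (pow_nonneg h0 _) h1.le
    _ ≤ ∑' j : ℕ, r ^ j := (summable_geometric_of_lt_one h0 h1).sum_le_tsum _
        (fun j _ => pow_nonneg h0 _)
    _ = 1 / (1 - r) := by rw [tsum_geometric_of_lt_one h0 h1, one_div]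

set_option maxHeartbeats 1600000 in
theorem main : S_levels := by
  intro d σ lam Lam Θ η C hd h0 h1 hlam hLam hΘ hη hC
  have hΘ0 : 0 < Θ := by linarith
  have hLam0 : 0 < Lam := by linarith
  have hs : 0 < 1 - σ := by linarith
  set cc : ℝ := (1 - σ) ^ 2 / 32 with hcc
  have hcc0 : 0 < cc := by rw [hcc]; positivity
  set r : ℝ := (2:ℝ) ^ (-cc) with hr
  have hr0 : 0 < r := Real.rpow_pos_of_pos (by norm_num) _
  have hr1 : r < 1 := Real.rpow_lt_one_of_one_lt_of_neg (by norm_num) (by linarith)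
  set Q : ℝ := 1 / (1 - r) with hQ
  have hQ0 : 0 < Q := by rw [hQ]; exact one_div_pos.2 (by linarith)
  set dl : ℝ := min 1 (η / (6 * Q)) with hdl
  have hdl0 : 0 < dl := by rw [hdl]; exact lt_min one_pos (by positivity)
  have hdl1 : dl ≤ 1 := min_le_left _ _
  have hdl2 : dl ≤ η / (6 * Q) := min_le_right _ _
  set Γ : ℝ := 24 * Θ * Q / (dl * η) + 2 * (8 * Θ + 256 * Θ ^ 3) / η with hΓ
  have hΓ0 : 0 < Γ := by rw [hΓ]; positivity
  set K : ℝ := (3 * Θ * (16 * 2 ^ d / lam) * Γ / dl) * (4 * Lam + C) with hK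
  have hK0 : 0 < K := by rw [hK]; positivity
  have hgm : 0 < (1 - σ) ^ 2 / 8 := by positivity
  obtain ⟨l1, hl1⟩ : ∃ l1 : ℝ, ∀ l ≥ l1, l ^ (-((1 - σ) ^ 2 / 8)) ≤ η / (3 * Q * K) := by
    have h2 := (tendsto_rpow_neg_atTop hgm).eventually
      (ge_mem_nhds (by positivity : (0:ℝ) < η / (3 * Q * K)))
    exact Filter.eventually_atTop.1 h2
  set B : ℝ := (2 + 32 * Θ ^ 2) * (2 * Θ) + 32 * Θ ^ 3 with hB
  have hB0 : 0 < B := by rw [hB]; positivity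
  set lmin : ℝ := max 2 (max l1 (max (128 * Θ ^ 2) (max (4 / dl) (4 * Γ * 2 ^ d * B / η)))) with hlm
  refine ⟨σ + (1 - σ) ^ 2 / 16, Γ, 1, lmin, (1 - σ) / 4,
    fun j => dl * ((2:ℝ) ^ j) ^ (-cc), by linarith [sq_nonneg (1 - σ), hcc0], by nlinarith, hΓ0,
    le_rfl, le_max_left _ _, by linarith, by linarith, fun j => by positivity, ?_⟩
  intro t l ht hl hG1 hG2
  have hl2 : 2 ≤ l := (le_max_left _ _).trans hl
  have hl3 : l1 ≤ l := ((le_max_left _ _).trans (le_max_right _ _)).trans hl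
  have hl4 : 128 * Θ ^ 2 ≤ l :=
    (((le_max_left _ _).trans (le_max_right _ _)).trans (le_max_right _ _)).trans hl
  have hl5 : 4 / dl ≤ l := ((((le_max_left _ _).trans (le_max_right _ _)).trans
    (le_max_right _ _)).trans (le_max_right _ _)).trans hl
  have hl6 : 4 * Γ * 2 ^ d * B / η ≤ l := ((((le_max_right _ _).trans (le_max_right _ _)).trans
    (le_max_right _ _)).trans (le_max_right _ _)).trans hl
  have hl0 : 0 < l := by linarith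
  have hl1' : 1 ≤ l := by linarith
  refine ⟨?_, ?_, ?_, ?_⟩
  · rw [le_div_iff₀ (by positivity)]
    calc 1 * (64 * Θ ^ 2) ≤ l / 2 := by linarith
      _ = (l / 2) ^ 1 := (pow_one _).symm
      _ ≤ (l / 2) ^ d := pow_le_pow_right₀ (by linarith) hd
  · intro j
    have hy1 : (1:ℝ) ≤ 2 ^ (j + 1) := one_le_pow₀ (by norm_num)
    have e1 : (1:ℝ) * 2 ^ (((j : ℝ) + 1) * (σ + (1 - σ) ^ 2 / 16)) =
        ((2:ℝ) ^ (j + 1)) ^ (σ + (1 - σ) ^ 2 / 16) := by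
      rw [two_pow_rpow, one_mul]
      push_cast
      rfl
    rw [e1]
    simp only
    set y : ℝ := (2:ℝ) ^ (j + 1) with hy
    have hy0 : 0 < y := by linarith
    have e2 : l * y / 2 ≤ (l * y / 2) ^ d := by
      calc l * y / 2 = (l * y / 2) ^ 1 := (pow_one _).symm
        _ ≤ _ := pow_le_pow_right₀ (by nlinarith) hd
    have hyc : 0 < y ^ (-cc) := Real.rpow_pos_of_pos hy0 _
    have e3 : 4 ≤ dl * l := by
      rw [div_le_iff₀ hdl0] at hl5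
      linarith
    calc y ^ (σ + (1 - σ) ^ 2 / 16) ≤ y ^ (1 + -cc) := by
          refine Real.rpow_le_rpow_of_exponent_le hy1 ?_
          rw [hcc]
          nlinarith
      _ = y * y ^ (-cc) := by rw [Real.rpow_add hy0, Real.rpow_one]
      _ ≤ (dl * l) / 4 * (y * y ^ (-cc)) := by
          refine le_mul_of_one_le_left (by positivity) ?_
          linarith
      _ = dl * y ^ (-cc) * (l * y / 2) / 2 := by ring
      _ ≤ dl * y ^ (-cc) * (l * y / 2) ^ d / 2 := by gcongr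
  · refine (base hd hlam hΘ hΓ0 ht hl1' hG1 hG2).trans ?_
    rw [← hB]
    have e1 : B * (2 * Γ * 2 ^ d / l) ≤ η / 2 := by
      rw [← mul_div_assoc, div_le_iff₀ hl0]
      rw [div_le_iff₀ hη] at hl6
      linarith
    have e2 : (8 * Θ + 256 * Θ ^ 3) / Γ ≤ η / 2 := by
      rw [div_le_iff₀ hΓ0, hΓ]
      have e3 : η / 2 * (24 * Θ * Q / (dl * η) + 2 * (8 * Θ + 256 * Θ ^ 3) / η) =
          η / 2 * (24 * Θ * Q / (dl * η)) + (8 * Θ + 256 * Θ ^ 3) := by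
        field_simp
      rw [e3]
      have : 0 < η / 2 * (24 * Θ * Q / (dl * η)) := by positivity
      linarith
    linarith
  · intro I
    have hterm : ∀ j ∈ Finset.range I,
        lvlErr d σ lam Lam Θ C ((1 - σ) / 4) t l (fun j => dl * ((2:ℝ) ^ j) ^ (-cc))
          (fun j => 1 * 2 ^ ((j : ℝ) * (σ + (1 - σ) ^ 2 / 16))) (j + 1) ≤
        (η / Q) * r ^ (j + 1) := by
      intro j _
      have hy1 : (1:ℝ) ≤ 2 ^ (j + 1) := one_le_pow₀ (by norm_num)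
      unfold lvlErr
      simp only [one_mul, Nat.add_sub_cancel]
      rw [← two_pow_rpow (j + 1) (σ + (1 - σ) ^ 2 / 16), hr, ← two_pow_rpow']
      have hsm : ((2:ℝ) ^ (j + 1)) ^ (σ + (1 - σ) ^ 2 / 16) / 2 ≤
          2 ^ ((j : ℝ) * (σ + (1 - σ) ^ 2 / 16)) := by
        rw [two_pow_rpow]
        push_cast
        rw [add_mul, one_mul, Real.rpow_add (by norm_num)]
        have h2 : (2:ℝ) ^ (σ + (1 - σ) ^ 2 / 16) ≤ 2 := by
          calc (2:ℝ) ^ (σ + (1 - σ) ^ 2 / 16) ≤ 2 ^ (1:ℝ) :=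
                Real.rpow_le_rpow_of_exponent_le (by norm_num) (by nlinarith)
            _ = 2 := Real.rpow_one _
        have h3 : 0 < (2:ℝ) ^ ((j : ℝ) * (σ + (1 - σ) ^ 2 / 16)) :=
          Real.rpow_pos_of_pos (by norm_num) _
        nlinarith
      have hdam := damage (y := 2 ^ (j + 1)) hd h0 h1 hlam hLam hΘ hC hΓ0 hdl0 hdl1 ht hl1' hy1 hG2
      have hexp := expo (d := d) (dl := dl) (y := 2 ^ (j + 1)) h0 h1 hlam hΘ hΓ0 hdl0 ht hl1' hy1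
        hG1 hsm
      rw [← hcc, ← hK] at hdam
      rw [← hcc] at hexp
      have hy0 : (0:ℝ) < ((2:ℝ) ^ (j + 1)) ^ (-cc) := by positivity
      set q : ℝ := ((2:ℝ) ^ (j + 1)) ^ (-cc) with hq
      have t1 : 2 * (dl * q) ≤ η / (3 * Q) * q := by
        have : 2 * dl ≤ η / (3 * Q) := by
          calc 2 * dl ≤ 2 * (η / (6 * Q)) := by linarith
            _ = η / (3 * Q) := by field_simp; norm_num
        nlinarith
      have t2 : K * (l ^ (-((1 - σ) ^ 2 / 8)) * q) ≤ η / (3 * Q) * q := by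
        have h2 := hl1 l hl3
        calc K * (l ^ (-((1 - σ) ^ 2 / 8)) * q) ≤ K * (η / (3 * Q * K) * q) := by gcongr
          _ = η / (3 * Q) * q := by field_simp
      have t3 : 8 * Θ / (Γ * dl) * q ≤ η / (3 * Q) * q := by
        refine mul_le_mul_of_nonneg_right ?_ hy0.le
        rw [div_le_div_iff₀ (by positivity) (by positivity)]
        have : 24 * Θ * Q ≤ η * dl * Γ := by
          rw [hΓ]
          have e3 : η * dl * (24 * Θ * Q / (dl * η) + 2 * (8 * Θ + 256 * Θ ^ 3) / η) =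
            24 * Θ * Q + 2 * dl * (8 * Θ + 256 * Θ ^ 3) := by
            field_simp
          rw [e3]
          have : 0 < 2 * dl * (8 * Θ + 256 * Θ ^ 3) := by positivity
          linarith
        linarith
      have t4 : η / Q * q = η / (3 * Q) * q + η / (3 * Q) * q + η / (3 * Q) * q := by
        field_simp
        norm_num
      rw [t4]
      exact add_le_add (add_le_add t1 (hdam.trans t2)) (hexp.trans t3)
    refine (Finset.sum_le_sum hterm).trans ?_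
    rw [← Finset.mul_sum]
    have := geo_sum hr0.le hr1 I
    rw [← hQ] at this
    calc η / Q * ∑ i ∈ Finset.range I, r ^ (i + 1) ≤ η / Q * Q := by gcongr
      _ = η := by field_simp

end

end Pool.Agent.W12.LR
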